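import Pool.Agent.W957.CH.Stm2

/-! Project CH (owner helper957), part PC0: components of the complement of the cycle. -/

set_option autoImplicit false

namespace Pool.Agent.W735.CH.PC0

open Finset Pool.Agent.W957.CH

/-- the graph with all edges inside `S` -/
def HS {V : Type} (G : SimpleGraph V) (S : Finset V) : SimpleGraph V where
  Adj x y := G.Adj x y ∧ x ∈ S ∧ y ∈ S
  symm := ⟨fun _ _ h => ⟨h.1.symm, h.2.2, h.2.1⟩⟩
  loopless := ⟨fun x h => G.loopless.irrefl x h.1⟩

theorem pf_of_reach {V : Type} [DecidableEq V] (G : SimpleGraph V) (S : Finset V) (u v : V)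
    (h : (HS G S).Reachable u v) : ∃ l, PF G u v l ∧ ∀ z ∈ l, (HS G S).Reachable u z := by
  obtain ⟨p⟩ := h
  have hp := (p.toPath).2
  set q := (p.toPath : (HS G S).Walk u v) with hq
  refine ⟨q.support, ⟨⟨hp.support_nodup, ?_⟩, ?_, ?_⟩, ?_⟩
  · have := q.isChain_adj_support
    exact this.imp fun a b hab => hab.1
  · rw [← SimpleGraph.Walk.cons_tail_support]; rfl
  · rw [List.getLast?_eq_getLast_of_ne_nil (SimpleGraph.Walk.support_ne_nil q), SimpleGraph.Walk.getLast_support]
  · intro z hz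
    exact ⟨q.takeUntil z hz⟩

theorem chain_mem {V : Type} (G : SimpleGraph V) (P Q : V → Prop)
    (hc : ∀ z z', P z → G.Adj z z' → Q z' → P z') :
    ∀ (l : List V), l.IsChain G.Adj → (∀ x, l.head? = some x → P x) → (∀ x ∈ l, Q x) →
      ∀ x ∈ l, P x
  | [] => by intro _ _ _ x hx; simp at hx
  | [a] => by
    intro _ h _ x hx
    rw [List.mem_singleton] at hx
    exact h x (by rw [hx]; rfl)
  | a :: b :: t => by
    intro h1 h2 h3 x hx
    rw [List.isChain_cons_cons] at h1
    have ha : P a := h2 a rfl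
    have hb : P b := hc a b ha h1.1 (h3 b (by simp))
    rcases List.mem_cons.1 hx with rfl | hx
    · exact ha
    · refine chain_mem G P Q hc (b :: t) h1.2 ?_ (fun y hy => h3 y (List.mem_cons_of_mem _ hy)) x hx
      intro y hy
      simp only [List.head?_cons, Option.some.injEq] at hy
      rw [← hy]; exact hb

theorem mem_nbr {V : Type} (G : SimpleGraph V) (A P : Finset V) (w : V) :
    w ∈ nbr G A P ↔ w ∈ A ∧ w ∉ P ∧ ∃ p ∈ P, G.Adj p w := by
  unfold nbr; simp

theorem t_PC0 : S_PC0 := by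
  classical
  intro V _ X n c hok hgood
  have P1 : ∀ x ∈ X.A, x ∉ img n c → ∃ K, Comp X n c K ∧ x ∈ K := by
    intro x hxA hxc
    set S := X.A \ img n c with hS
    have hxS : x ∈ S := by rw [hS, mem_sdiff]; exact ⟨hxA, hxc⟩
    set K := S.filter (fun y => (HS X.G S).Reachable x y) with hK
    have hxK : x ∈ K := by rw [hK, mem_filter]; exact ⟨hxS, SimpleGraph.Reachable.refl _⟩
    have hin : ∀ z, (HS X.G S).Reachable x z → z ∈ S := by
      intro z ⟨p⟩
      by_cases h : x = z
      · rw [← h]; exact hxS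
      · have hnn : ¬ p.Nil := fun hn => h hn.eq
        have := p.adj_penultimate hnn
        exact this.2.2
    refine ⟨K, ⟨⟨⟨x, hxK⟩, ?_⟩, ?_, ?_, ?_⟩, hxK⟩
    · intro u hu v hv
      rw [hK, mem_filter] at hu hv
      obtain ⟨l, hl, hl2⟩ := pf_of_reach X.G S u v (hu.2.symm.trans hv.2)
      refine ⟨l, hl, fun z hz => ?_⟩
      have := hu.2.trans (hl2 z hz)
      rw [hK, mem_filter]
      exact ⟨hin z this, this⟩
    · intro z hz
      rw [hK, mem_filter, hS, mem_sdiff] at hz
      exact hz.1.1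
    · rw [Finset.disjoint_left]
      intro z hz hz2
      rw [hK, mem_filter, hS, mem_sdiff] at hz
      exact hz.1.2 hz2
    · intro w hw
      rw [mem_nbr] at hw
      obtain ⟨hwA, hwK, p, hpK, hadj⟩ := hw
      by_contra hwc
      apply hwK
      rw [hK, mem_filter] at hpK ⊢
      have hwS : w ∈ S := by rw [hS, mem_sdiff]; exact ⟨hwA, hwc⟩
      refine ⟨hwS, hpK.2.trans ?_⟩
      exact (SimpleGraph.Adj.reachable (G := HS X.G S) ⟨hadj, hpK.1, hwS⟩)
  have P2' : ∀ K K' x, Comp X n c K → Comp X n c K' → x ∈ K → x ∈ K' → K' ⊆ K := by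
    intro K K' x hK hK' hx hx' y hy
    obtain ⟨l, hl, hl2⟩ := hK'.1.2 x hx' y hy
    have := chain_mem X.G (fun z => z ∈ K) (fun z => z ∈ K') (by
      intro z z' hz hadj hz'
      by_contra hcon
      have h1 : z' ∈ nbr X.G X.A K := by
        rw [mem_nbr]
        exact ⟨hK'.2.1 hz', hcon, z, hz, hadj⟩
      exact (Finset.disjoint_left.1 hK'.2.2.1 hz') (hK.2.2.2 h1)) l hl.1.2 (by
      intro z hz
      rw [hl.2.1] at hz
      rw [← Option.some.inj hz]; exact hx) hl2 y (List.mem_of_getLast? hl.2.2)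
    exact this
  refine ⟨P1, fun K K' x hK hK' hx hx' =>
    subset_antisymm (P2' K' K x hK' hK hx' hx) (P2' K K' x hK hK' hx hx'), ?_, ?_⟩
  · intro i hi
    obtain ⟨hin, hB, hch, -⟩ := hi
    have h3 := hgood.cr.three
    have hdeg := hok.deg (c i) (hgood.sub i hin) hB
    have hsub : ∃ w ∈ nbr X.G X.A {c i}, w ∉ img n c := by
      by_contra hcon
      push Not at hcon
      have hss : nbr X.G X.A {c i} ⊆
          {c (if i + 1 < n then i + 1 else 0), c (if i = 0 then n - 1 else i - 1)} := by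
        intro w hw
        have hw2 := hcon w hw
        rw [mem_nbr] at hw
        obtain ⟨-, -, p, hp, hadj⟩ := hw
        rw [mem_singleton] at hp
        subst hp
        unfold img at hw2
        rw [mem_image] at hw2
        obtain ⟨j, hj, hjw⟩ := hw2
        rw [mem_range] at hj
        have hcons : Pool.Agent.W957.CH.cons n i j := by
          by_contra hcc
          exact hch ⟨j, hj, by rw [hjw]; exact hadj, hcc⟩
        have hjj : j = (if i + 1 < n then i + 1 else 0) ∨ j = (if i = 0 then n - 1 else i - 1) := by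
          unfold Pool.Agent.W957.CH.cons at hcons
          split_ifs <;> omega
        rw [mem_insert, mem_singleton, ← hjw]
        rcases hjj with h | h
        · left; rw [h]
        · right; rw [h]
      have := card_le_card hss
      have h2 : ({c (if i + 1 < n then i + 1 else 0), c (if i = 0 then n - 1 else i - 1)} : Finset V).card ≤ 2 :=
        card_le_two
      omega
    obtain ⟨w, hw, hwc⟩ := hsub
    rw [mem_nbr] at hw
    obtain ⟨hwA, -, p, hp, hadj⟩ := hw
    rw [mem_singleton] at hp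
    subst hp
    obtain ⟨K, hK, hwK⟩ := P1 w hwA hwc
    exact ⟨K, hK, w, hwK, hadj.symm⟩
  · intro a b K hK ⟨u, hu, hua⟩ ⟨v, hv, hvb⟩
    obtain ⟨R, hR, hR2⟩ := hK.1.2 u hu v hv
    exact ⟨R, ⟨⟨u, v, hR, hua.symm, hvb⟩, fun x hx =>
      ⟨hK.2.1 (hR2 x hx), Finset.disjoint_left.1 hK.2.2.1 (hR2 x hx)⟩⟩, hR2⟩

end Pool.Agent.W735.CH.PC0
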